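import Pool.Agent.helper64.OT.SpecI

/-!
# Project OT (MP_f6e9a2_nt), row COL: sets covered by few cells

The set `B` is split (HVI) into its part `L` in the sparse cells and its part `U` in the dense cells; `L` is
handled by the fourth moment (P3H, ENL, MEL), `U` by the tiles (BDC, TIL).
-/

set_option autoImplicit false

namespace Pool.Agent.OL

open Finset Pool.Agent.OT Pool.Agent.SPI Pool.Agent.helper85.PG
open scoped Pointwise

lemma COL_floor (x : ℝ) (hx : 1 ≤ x) : x / 2 ≤ (⌊x⌋₊ : ℝ) := by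
  have h1 : x < (⌊x⌋₊ : ℝ) + 1 := Nat.lt_floor_add_one x
  have h2 : 1 ≤ ⌊x⌋₊ := Nat.one_le_floor_iff x |>.2 hx
  have h3 : (1 : ℝ) ≤ (⌊x⌋₊ : ℝ) := by exact_mod_cast h2
  linarith

lemma COL_J2 (J : Finset ℕ) : (J2 J).card ≤ 2 * J.card + 1 := by
  unfold J2
  have h1 := Finset.card_insert_le 0 (J ∪ J.image fun j => j + 1)
  have h2 := Finset.card_union_le J (J.image fun j => j + 1)
  have h3 : (J.image fun j => j + 1).card ≤ J.card := Finset.card_image_le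
  omega

lemma COL_sub {p : ℕ} [Fact p.Prime] (h : ℕ) (X : Finset (ZMod p)) : X ⊆ CU h (cells h X) := by
  intro x hx
  exact Finset.mem_filter.2 ⟨Finset.mem_univ _, Finset.mem_image_of_mem _ hx⟩

lemma COL_numL (P c G L E : ℝ) (hP : 1 ≤ P) (hc : 0 < c) (hc1 : c ≤ 1 / 160) (hG0 : 0 ≤ G)
    (hG : G ≤ 3 * P ^ (1 / 2 + c)) (hL : P ^ (1 / 2 - c / 2 / 8) ≤ L) (hE0 : 0 ≤ E)
    (hE : E ≤ 4 * P ^ (-(8 * c)) * L ^ 2) :
    G * L + L * (E * (4 * P * G ^ 4 + 100 * G ^ 2 * P ^ 2)) ^ (1 / 4 : ℝ) ≤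
      100 * P ^ (1 / 2 - c / 2) * L ^ 2 := by
  have hP0 : 0 < P := by linarith
  have hl0 : 0 < P ^ (1 / 2 - c / 2 / 8) := Real.rpow_pos_of_pos hP0 _
  have hL0 : 0 < L := lt_of_lt_of_le hl0 hL
  have ha0 : 0 < P ^ (1 / 2 - c / 2) := Real.rpow_pos_of_pos hP0 _
  have h1 : G ≤ 3 * (P ^ (1 / 2 - c / 2) * L) := by
    calc G ≤ 3 * P ^ (1 / 2 + c) := hG
      _ ≤ 3 * P ^ ((1 / 2 - c / 2) + (1 / 2 - c / 2 / 8)) :=
          mul_le_mul_of_nonneg_left (Real.rpow_le_rpow_of_exponent_le hP (by linarith)) (by norm_num)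
      _ = 3 * (P ^ (1 / 2 - c / 2) * P ^ (1 / 2 - c / 2 / 8)) := by rw [Real.rpow_add hP0]
      _ ≤ 3 * (P ^ (1 / 2 - c / 2) * L) :=
          mul_le_mul_of_nonneg_left (mul_le_mul_of_nonneg_left hL ha0.le) (by norm_num)
  have hG2 : G ^ 2 ≤ 9 * P ^ (1 + 2 * c) := by
    calc G ^ 2 ≤ (3 * P ^ (1 / 2 + c)) ^ 2 := pow_le_pow_left₀ hG0 hG 2
      _ = 9 * (P ^ (1 / 2 + c) * P ^ (1 / 2 + c)) := by ring
      _ = 9 * P ^ (1 + 2 * c) := by
          rw [← Real.rpow_add hP0]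
          congr 2
          ring
  have hG4 : G ^ 4 ≤ 81 * P ^ (2 + 4 * c) := by
    calc G ^ 4 = (G ^ 2) ^ 2 := by ring
      _ ≤ (9 * P ^ (1 + 2 * c)) ^ 2 := pow_le_pow_left₀ (by positivity) hG2 2
      _ = 81 * (P ^ (1 + 2 * c) * P ^ (1 + 2 * c)) := by ring
      _ = 81 * P ^ (2 + 4 * c) := by
          rw [← Real.rpow_add hP0]
          congr 2
          ring
  have h2 : 4 * P * G ^ 4 + 100 * G ^ 2 * P ^ 2 ≤ 2000 * P ^ (3 + 4 * c) := by
    have h3 : 4 * P * G ^ 4 ≤ 324 * P ^ (3 + 4 * c) := by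
      calc 4 * P * G ^ 4 ≤ 4 * P * (81 * P ^ (2 + 4 * c)) :=
            mul_le_mul_of_nonneg_left hG4 (by positivity)
        _ = 324 * (P ^ (1 : ℝ) * P ^ (2 + 4 * c)) := by rw [Real.rpow_one]; ring
        _ = 324 * P ^ (3 + 4 * c) := by
            rw [← Real.rpow_add hP0]
            congr 2
            ring
    have h4 : 100 * G ^ 2 * P ^ 2 ≤ 900 * P ^ (3 + 4 * c) := by
      calc 100 * G ^ 2 * P ^ 2 ≤ 100 * (9 * P ^ (1 + 2 * c)) * P ^ 2 :=
            mul_le_mul_of_nonneg_right (mul_le_mul_of_nonneg_left hG2 (by norm_num)) (by positivity)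
        _ = 900 * (P ^ (1 + 2 * c) * P ^ (2 : ℝ)) := by rw [Real.rpow_two]; ring
        _ = 900 * P ^ (1 + 2 * c + 2) := by rw [← Real.rpow_add hP0]
        _ ≤ 900 * P ^ (3 + 4 * c) :=
            mul_le_mul_of_nonneg_left (Real.rpow_le_rpow_of_exponent_le hP (by linarith)) (by norm_num)
    have h5 : 0 < P ^ (3 + 4 * c) := Real.rpow_pos_of_pos hP0 _
    linarith
  have hLsq : P ^ (1 - c / 8) ≤ L ^ 2 := by
    calc P ^ (1 - c / 8) = P ^ ((1 / 2 - c / 2 / 8) + (1 / 2 - c / 2 / 8)) := by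
          congr 1; ring
      _ = P ^ (1 / 2 - c / 2 / 8) * P ^ (1 / 2 - c / 2 / 8) := Real.rpow_add hP0 _ _
      _ ≤ L * L := mul_le_mul hL hL hl0.le hL0.le
      _ = L ^ 2 := by ring
  have h4 : (P ^ (1 / 2 - c / 2)) ^ 4 = P ^ (2 - 2 * c) := by
    rw [← Real.rpow_natCast, ← Real.rpow_mul hP0.le]
    congr 1
    push_cast
    ring
  have h5 : E * (4 * P * G ^ 4 + 100 * G ^ 2 * P ^ 2) ≤ (10 * P ^ (1 / 2 - c / 2) * L) ^ 4 := by
    calc E * (4 * P * G ^ 4 + 100 * G ^ 2 * P ^ 2)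
        ≤ (4 * P ^ (-(8 * c)) * L ^ 2) * (2000 * P ^ (3 + 4 * c)) :=
          mul_le_mul hE h2 (by positivity) (by positivity)
      _ = 8000 * (P ^ (-(8 * c)) * P ^ (3 + 4 * c)) * L ^ 2 := by ring
      _ = 8000 * P ^ (3 - 4 * c) * L ^ 2 := by
          rw [← Real.rpow_add hP0]
          congr 3
          ring
      _ ≤ 10000 * P ^ ((2 - 2 * c) + (1 - c / 8)) * L ^ 2 := by
          have h6 : P ^ (3 - 4 * c) ≤ P ^ ((2 - 2 * c) + (1 - c / 8)) :=
            Real.rpow_le_rpow_of_exponent_le hP (by linarith)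
          have h7 : 0 < P ^ (3 - 4 * c) := Real.rpow_pos_of_pos hP0 _
          exact mul_le_mul_of_nonneg_right (by linarith) (by positivity)
      _ = 10000 * P ^ (2 - 2 * c) * P ^ (1 - c / 8) * L ^ 2 := by
          rw [Real.rpow_add hP0]; ring
      _ ≤ 10000 * P ^ (2 - 2 * c) * L ^ 2 * L ^ 2 := by
          have h8 : 0 < P ^ (2 - 2 * c) := Real.rpow_pos_of_pos hP0 _
          exact mul_le_mul_of_nonneg_right (mul_le_mul_of_nonneg_left hLsq (by positivity))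
            (by positivity)
      _ = (10 * P ^ (1 / 2 - c / 2) * L) ^ 4 := by
          rw [mul_pow, mul_pow, h4]; ring
  have h9 : (E * (4 * P * G ^ 4 + 100 * G ^ 2 * P ^ 2)) ^ (1 / 4 : ℝ) ≤
      10 * P ^ (1 / 2 - c / 2) * L := by
    have h10 : 0 ≤ 10 * P ^ (1 / 2 - c / 2) * L := by positivity
    calc (E * (4 * P * G ^ 4 + 100 * G ^ 2 * P ^ 2)) ^ (1 / 4 : ℝ)
        ≤ ((10 * P ^ (1 / 2 - c / 2) * L) ^ 4) ^ (1 / 4 : ℝ) :=
          Real.rpow_le_rpow (by positivity) h5 (by norm_num)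
      _ = 10 * P ^ (1 / 2 - c / 2) * L := by
          rw [← Real.rpow_natCast, ← Real.rpow_mul h10]
          norm_num
  have h11 : G * L ≤ 3 * (P ^ (1 / 2 - c / 2) * L ^ 2) := by
    calc G * L ≤ (3 * (P ^ (1 / 2 - c / 2) * L)) * L := mul_le_mul_of_nonneg_right h1 hL0.le
      _ = _ := by ring
  have h12 : L * (E * (4 * P * G ^ 4 + 100 * G ^ 2 * P ^ 2)) ^ (1 / 4 : ℝ) ≤
      10 * (P ^ (1 / 2 - c / 2) * L ^ 2) := by
    calc L * (E * (4 * P * G ^ 4 + 100 * G ^ 2 * P ^ 2)) ^ (1 / 4 : ℝ)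
        ≤ L * (10 * P ^ (1 / 2 - c / 2) * L) := mul_le_mul_of_nonneg_left h9 hL0.le
      _ = _ := by ring
  have h13 : 0 < P ^ (1 / 2 - c / 2) * L ^ 2 := by positivity
  nlinarith [h11, h12, h13]

lemma COL_numU (P κ δ c h m nX nU b : ℝ) (hP : 1 ≤ P) (hcκ : 40 * c ≤ κ) (hcδ : 40 * c ≤ δ) (hc : 0 < c)
    (hh0 : 0 < h) (hh : P ^ κ / 2 ≤ h) (hnX : 0 ≤ nX) (hnU : 0 ≤ nU) (hX : h * nX ≤ P ^ (1 / 2 + c))
    (hm : h * P ^ (-(8 * c)) / 2 ≤ m) (hU : m * nU ≤ b) (hb : b ≤ P ^ (1 / 2 + c / 16)) :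
    Real.sqrt (P ^ (-δ)) * h * Real.sqrt (nX * nU) + 3 * h * (P ^ (1 / 2 + κ / 4) / h ^ 2) * Real.sqrt h ≤
      8 * P ^ (1 / 2 - 10 * c) := by
  have hP0 : 0 < P := by linarith
  have ha0 : 0 < P ^ (1 / 2 - 10 * c) := Real.rpow_pos_of_pos hP0 _
  have hhU : h * nU ≤ 2 * P ^ (1 / 2 + c / 16 + 8 * c) := by
    have h1 : h ≤ 2 * P ^ (8 * c) * m := by
      have h2 : P ^ (8 * c) * P ^ (-(8 * c)) = 1 := by
        rw [← Real.rpow_add hP0, add_neg_cancel, Real.rpow_zero]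
      have h3 : 0 < P ^ (8 * c) := Real.rpow_pos_of_pos hP0 _
      calc h = 2 * P ^ (8 * c) * (h * P ^ (-(8 * c)) / 2) := by
            have : 2 * P ^ (8 * c) * (h * P ^ (-(8 * c)) / 2) = h * (P ^ (8 * c) * P ^ (-(8 * c))) := by ring
            rw [this, h2, mul_one]
        _ ≤ 2 * P ^ (8 * c) * m := mul_le_mul_of_nonneg_left hm (by positivity)
    calc h * nU ≤ (2 * P ^ (8 * c) * m) * nU := mul_le_mul_of_nonneg_right h1 hnU
      _ = 2 * P ^ (8 * c) * (m * nU) := by ring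
      _ ≤ 2 * P ^ (8 * c) * P ^ (1 / 2 + c / 16) :=
          mul_le_mul_of_nonneg_left (le_trans hU hb) (by positivity)
      _ = 2 * (P ^ (1 / 2 + c / 16) * P ^ (8 * c)) := by ring
      _ = 2 * P ^ (1 / 2 + c / 16 + 8 * c) := by rw [← Real.rpow_add hP0]
  have hfirst : Real.sqrt (P ^ (-δ)) * h * Real.sqrt (nX * nU) ≤ 2 * P ^ (1 / 2 - 10 * c) := by
    have h1 : Real.sqrt (P ^ (-δ)) * h * Real.sqrt (nX * nU) =
        Real.sqrt (P ^ (-δ) * ((h * nX) * (h * nU))) := by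
      have h2 : P ^ (-δ) * ((h * nX) * (h * nU)) = (P ^ (-δ) * h ^ 2) * (nX * nU) := by ring
      have h3 : 0 ≤ P ^ (-δ) := (Real.rpow_pos_of_pos hP0 _).le
      rw [h2, Real.sqrt_mul (mul_nonneg h3 (sq_nonneg h)) (nX * nU), Real.sqrt_mul h3 (h ^ 2), Real.sqrt_sq hh0.le]
    rw [h1]
    refine Real.sqrt_le_iff.2 ⟨by positivity, ?_⟩
    calc P ^ (-δ) * ((h * nX) * (h * nU))
        ≤ P ^ (-δ) * (P ^ (1 / 2 + c) * (2 * P ^ (1 / 2 + c / 16 + 8 * c))) := by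
          refine mul_le_mul_of_nonneg_left ?_ (Real.rpow_pos_of_pos hP0 _).le
          exact mul_le_mul hX hhU (by positivity) (Real.rpow_pos_of_pos hP0 _).le
      _ = 2 * (P ^ (-δ) * (P ^ (1 / 2 + c) * P ^ (1 / 2 + c / 16 + 8 * c))) := by ring
      _ = 2 * P ^ (-δ + (1 / 2 + c + (1 / 2 + c / 16 + 8 * c))) := by
          rw [← Real.rpow_add hP0, ← Real.rpow_add hP0]
      _ ≤ 4 * P ^ ((1 / 2 - 10 * c) + (1 / 2 - 10 * c)) := by
          have h4 : P ^ (-δ + (1 / 2 + c + (1 / 2 + c / 16 + 8 * c))) ≤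
              P ^ ((1 / 2 - 10 * c) + (1 / 2 - 10 * c)) :=
            Real.rpow_le_rpow_of_exponent_le hP (by linarith)
          have h5 : 0 < P ^ (-δ + (1 / 2 + c + (1 / 2 + c / 16 + 8 * c))) := Real.rpow_pos_of_pos hP0 _
          linarith
      _ = (2 * P ^ (1 / 2 - 10 * c)) ^ 2 := by
          rw [Real.rpow_add hP0]; ring
  have hsecond : 3 * h * (P ^ (1 / 2 + κ / 4) / h ^ 2) * Real.sqrt h ≤ 6 * P ^ (1 / 2 - 10 * c) := by
    have hs0 : 0 < Real.sqrt h := Real.sqrt_pos.2 hh0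
    have hs : P ^ (κ / 2) / 2 ≤ Real.sqrt h := by
      refine Real.le_sqrt_of_sq_le ?_
      have h1 : (P ^ (κ / 2) / 2) ^ 2 = P ^ κ / 4 := by
        have h2 : P ^ κ = P ^ (κ / 2) * P ^ (κ / 2) := by
          rw [← Real.rpow_add hP0]
          congr 1
          ring
        rw [h2]; ring
      have h3 : 0 < P ^ κ := Real.rpow_pos_of_pos hP0 _
      rw [h1]
      linarith
    have h1 : 3 * h * (P ^ (1 / 2 + κ / 4) / h ^ 2) * Real.sqrt h = 3 * P ^ (1 / 2 + κ / 4) / Real.sqrt h := by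
      have h2 : Real.sqrt h * Real.sqrt h = h := Real.mul_self_sqrt hh0.le
      rw [eq_div_iff hs0.ne']
      have h3 : 3 * h * (P ^ (1 / 2 + κ / 4) / h ^ 2) * Real.sqrt h * Real.sqrt h =
          3 * h * (P ^ (1 / 2 + κ / 4) / h ^ 2) * (Real.sqrt h * Real.sqrt h) := by ring
      rw [h3, h2]
      field_simp
    rw [h1, div_le_iff₀ hs0]
    calc 3 * P ^ (1 / 2 + κ / 4) ≤ 3 * P ^ ((1 / 2 - 10 * c) + κ / 2) :=
          mul_le_mul_of_nonneg_left (Real.rpow_le_rpow_of_exponent_le hP (by linarith)) (by norm_num)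
      _ = 6 * P ^ (1 / 2 - 10 * c) * (P ^ (κ / 2) / 2) := by
          rw [Real.rpow_add hP0]; ring
      _ ≤ 6 * P ^ (1 / 2 - 10 * c) * Real.sqrt h := mul_le_mul_of_nonneg_left hs (by positivity)
  linarith

theorem COL (hSIZ : SIZ_stmt) (hMEL : MEL_stmt) (hP3H : P3H_stmt) (hGCL : GCL_stmt) (hENL : ENL_stmt)
    (hHVI : HVI_stmt) (hBDC : BDC_stmt) (hTIL : TIL_stmt) : COL_stmt := by
  intro κ ε hκ hκ4 hε
  obtain ⟨γ, δ, pB, hγ, hγκ, hδ, HB⟩ := hBDC κ hκ hκ4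
  set e : ℝ := min ε (1 / 4) with hedef
  have he : 0 < e := lt_min hε (by norm_num)
  have heε : e ≤ ε := min_le_left _ _
  have he4 : e ≤ 1 / 4 := min_le_right _ _
  set c₁ : ℝ := min δ κ / 40 with hc₁def
  have hc₁ : 0 < c₁ := div_pos (lt_min hδ hκ) (by norm_num)
  have hc₁δ : 40 * c₁ ≤ δ := by
    have : min δ κ ≤ δ := min_le_left _ _
    rw [hc₁def]; linarith
  have hc₁κ : 40 * c₁ ≤ κ := by
    have : min δ κ ≤ κ := min_le_right _ _
    rw [hc₁def]; linarith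
  have hc₁s : c₁ ≤ 1 / 160 := by linarith
  obtain ⟨cS, pS, hcS, HS⟩ := hSIZ e (c₁ / 16) he (by positivity)
  obtain ⟨cM, pM, hcM, HM⟩ := hMEL e (c₁ / 2) 100 he (by positivity) (by norm_num)
  set c' : ℝ := min cM (10 * c₁) with hc'def
  have hc' : 0 < c' := lt_min hcM (by positivity)
  have hc'M : c' ≤ cM := min_le_left _ _
  have hc'1 : c' ≤ 10 * c₁ := min_le_right _ _
  refine ⟨min (min cS c₁) (c' / 2), max (max pS pM) (max pB ⌈(9 : ℝ) ^ (2 / c')⌉₊),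
    lt_min (lt_min hcS hc₁) (by positivity), ?_⟩
  intro p _ hp χ h X B β hχ hβ hh hXc hcase
  have hpS : pS < p := lt_of_le_of_lt (le_trans (le_max_left _ _) (le_max_left _ _)) hp
  have hpM : pM < p := lt_of_le_of_lt (le_trans (le_max_right _ _) (le_max_left _ _)) hp
  have hpB : pB < p := lt_of_le_of_lt (le_trans (le_max_left _ _) (le_max_right _ _)) hp
  have hp2 : ⌈(9 : ℝ) ^ (2 / c')⌉₊ < p :=
    lt_of_le_of_lt (le_trans (le_max_right _ _) (le_max_right _ _)) hp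
  have hp1 : 1 < p := (Fact.out : p.Prime).one_lt
  have hPge : (1 : ℝ) ≤ (p : ℝ) := by exact_mod_cast hp1.le
  have hPpos : (0 : ℝ) < (p : ℝ) := by linarith
  have hP2 : (9 : ℝ) ^ (2 / c') < (p : ℝ) :=
    lt_of_le_of_lt (Nat.le_ceil _) (by exact_mod_cast hp2)
  have h9 : (9 : ℝ) ≤ (p : ℝ) ^ (c' / 2) := by
    calc (9 : ℝ) = ((9 : ℝ) ^ (2 / c')) ^ (c' / 2) := by
          rw [← Real.rpow_mul (by norm_num)]
          have : 2 / c' * (c' / 2) = 1 := by field_simp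
          rw [this, Real.rpow_one]
      _ ≤ (p : ℝ) ^ (c' / 2) := Real.rpow_le_rpow (by positivity) hP2.le (by positivity)
  set c : ℝ := min (min cS c₁) (c' / 2) with hcdef
  have hccS : c ≤ cS := le_trans (min_le_left _ _) (min_le_left _ _)
  have hcc₁ : c ≤ c₁ := le_trans (min_le_left _ _) (min_le_right _ _)
  have hcc' : c ≤ c' / 2 := min_le_right _ _
  obtain ⟨hM0, hMh, h24, HBS⟩ := HB p hpB χ h ⌊(p : ℝ) ^ (κ - γ)⌋₊ hχ hh rfl
  set M : ℕ := ⌊(p : ℝ) ^ (κ - γ)⌋₊ with hMdef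
  have hh0 : 0 < h := by omega
  have hhp : h ≤ p := by omega
  have hh0' : (0 : ℝ) < (h : ℝ) := by exact_mod_cast hh0
  have hPκ : (1 : ℝ) ≤ (p : ℝ) ^ κ := Real.one_le_rpow hPge hκ.le
  have hhlow : (p : ℝ) ^ κ / 2 ≤ (h : ℝ) := by
    rw [hh]
    exact COL_floor _ hPκ
  have hhup : (h : ℝ) ≤ (p : ℝ) ^ κ := by
    rw [hh]
    exact Nat.floor_le (by positivity)
  have hX1c : (h : ℝ) * (cells h X).card ≤ (p : ℝ) ^ (1 / 2 + c₁) :=
    le_trans hXc (Real.rpow_le_rpow_of_exponent_le hPge (by linarith))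
  obtain ⟨hGC1, hGC2⟩ := hGCL p h (cells h X) hh0
  have hXsub : X ⊆ CU h (cells h X) := COL_sub h X
  have hXcard : (X.card : ℝ) ≤ (p : ℝ) ^ (1 / 2 + c₁) := by
    have h1 : X.card ≤ h * (cells h X).card := le_trans (Finset.card_le_card hXsub) hGC2
    have h2 : (X.card : ℝ) ≤ (h : ℝ) * (cells h X).card := by exact_mod_cast h1
    exact le_trans h2 hX1c
  have hX1 : (X.card : ℝ) ≤ (p : ℝ) ^ (1 - e) :=
    le_trans hXcard (Real.rpow_le_rpow_of_exponent_le hPge (by linarith))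
  have hcase' : (B.card : ℝ) ≤ (p : ℝ) ^ (1 - e) ∨ (p : ℝ) ^ e ≤ X.card := by
    rcases hcase with h1 | h1
    · exact Or.inl (le_trans h1 (Real.rpow_le_rpow_of_exponent_le hPge (by linarith)))
    · exact Or.inr (le_trans (Real.rpow_le_rpow_of_exponent_le hPge heε) h1)
  have hR0 : ∀ D : Finset (ZMod p), 0 ≤ Real.sqrt (p * (X.card * D.card)) + (X.card : ℝ) * D.card :=
    fun D => by positivity
  rcases HS p hpS χ X B hχ hX1 hcase' with hfirst | ⟨-, -, -, hB2⟩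
  · refine le_trans (hfirst β hβ) (mul_le_mul_of_nonneg_right ?_ (hR0 B))
    exact Real.rpow_le_rpow_of_exponent_le hPge (neg_le_neg hccS)
  · set m : ℕ := ⌊(h : ℝ) * (p : ℝ) ^ (-(8 * c₁))⌋₊ with hm
    obtain ⟨L, U, hLB, hUB, hsplit0, hLcell, hUcell⟩ := hHVI p h m B hh0
    have hsplit : ∀ x, FB χ B β x = FB χ L β x + FB χ U β x := by
      intro x
      unfold Pool.Agent.OT.FB
      exact hsplit0 fun b => β b * χ (x + b)
    have hLB' : (L.card : ℝ) ≤ B.card := by exact_mod_cast Finset.card_le_card hLB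
    have hUB' : (U.card : ℝ) ≤ B.card := by exact_mod_cast Finset.card_le_card hUB
    have hmono : ∀ D : Finset (ZMod p), (D.card : ℝ) ≤ B.card →
        Real.sqrt (p * (X.card * D.card)) + (X.card : ℝ) * D.card ≤
          Real.sqrt (p * (X.card * B.card)) + (X.card : ℝ) * B.card := by
      intro D hD
      have h3 : (X.card : ℝ) * D.card ≤ (X.card : ℝ) * B.card :=
        mul_le_mul_of_nonneg_left hD (Nat.cast_nonneg _)
      have h4 : Real.sqrt (p * (X.card * D.card)) ≤ Real.sqrt (p * (X.card * B.card)) :=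
        Real.sqrt_le_sqrt (mul_le_mul_of_nonneg_left h3 hPpos.le)
      linarith
    have hmup : (m : ℝ) ≤ (h : ℝ) * (p : ℝ) ^ (-(8 * c₁)) := Nat.floor_le (by positivity)
    have hmlow : (h : ℝ) * (p : ℝ) ^ (-(8 * c₁)) / 2 ≤ (m : ℝ) := by
      refine COL_floor _ ?_
      have h1 : (2 : ℝ) ≤ (p : ℝ) ^ (κ - 8 * c₁) := by
        have h2 : (p : ℝ) ^ (c' / 2) ≤ (p : ℝ) ^ (κ - 8 * c₁) :=
          Real.rpow_le_rpow_of_exponent_le hPge (by linarith)
        linarith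
      calc (1 : ℝ) ≤ (p : ℝ) ^ (κ - 8 * c₁) / 2 := by linarith
        _ = (p : ℝ) ^ κ / 2 * (p : ℝ) ^ (-(8 * c₁)) := by
            rw [sub_eq_add_neg, Real.rpow_add hPpos]; ring
        _ ≤ (h : ℝ) * (p : ℝ) ^ (-(8 * c₁)) :=
            mul_le_mul_of_nonneg_right hhlow (Real.rpow_pos_of_pos hPpos _).le
    -- the part in the dense cells
    have hSU : ∑ x ∈ X, ‖FB χ U β x‖ ≤
        8 * ((p : ℝ) ^ (-(10 * c₁)) * (Real.sqrt (p * (X.card * U.card)) + (X.card : ℝ) * U.card)) := by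
      have h1 := hTIL p χ h M X U β ((p : ℝ) ^ (-δ)) ((p : ℝ) ^ (1 / 2 + κ / 4) / (h : ℝ) ^ 2) hM0 hMh
        (by positivity) (by positivity) hβ (by
          intro S hS hSep
          rw [le_div_iff₀ (by positivity)]
          exact HBS S hS hSep)
      have h2 := COL_numU (p : ℝ) κ δ c₁ h m (cells h X).card (cells h U).card B.card hPge hc₁κ hc₁δ hc₁
        hh0' hhlow (Nat.cast_nonneg _) (Nat.cast_nonneg _) hX1c hmlow (by exact_mod_cast hUcell) hB2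
      have h3 : (p : ℝ) ^ (1 / 2 - 10 * c₁) * Real.sqrt (X.card * U.card) =
          (p : ℝ) ^ (-(10 * c₁)) * Real.sqrt (p * (X.card * U.card)) := by
        have h4 : Real.sqrt ((p : ℝ) * ((X.card : ℝ) * U.card)) =
            (p : ℝ) ^ (1 / 2 : ℝ) * Real.sqrt ((X.card : ℝ) * U.card) := by
          rw [Real.sqrt_mul hPpos.le, Real.sqrt_eq_rpow (p : ℝ)]
        rw [h4, ← mul_assoc, ← Real.rpow_add hPpos]
        congr 2
        ring
      calc ∑ x ∈ X, ‖FB χ U β x‖ ≤ _ := h1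
        _ ≤ 8 * (p : ℝ) ^ (1 / 2 - 10 * c₁) * Real.sqrt (X.card * U.card) :=
            mul_le_mul_of_nonneg_right h2 (Real.sqrt_nonneg _)
        _ = 8 * ((p : ℝ) ^ (1 / 2 - 10 * c₁) * Real.sqrt (X.card * U.card)) := by ring
        _ = 8 * ((p : ℝ) ^ (-(10 * c₁)) * Real.sqrt (p * (X.card * U.card))) := by rw [h3]
        _ ≤ _ := by
            refine mul_le_mul_of_nonneg_left (mul_le_mul_of_nonneg_left ?_ (by positivity)) (by norm_num)
            have : (0 : ℝ) ≤ (X.card : ℝ) * U.card := by positivity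
            linarith
    -- the part in the sparse cells
    have hcaseL : (L.card : ℝ) ≤ (p : ℝ) ^ (1 - e) ∨ (p : ℝ) ^ e ≤ X.card := by
      rcases hcase' with h1 | h1
      · exact Or.inl (le_trans hLB' h1)
      · exact Or.inr h1
    have hG : ((CU h (J2 (cells h X)) : Finset (ZMod p)).card : ℝ) ≤ 3 * (p : ℝ) ^ (1 / 2 + c₁) := by
      have h1 : (CU h (J2 (cells h X)) : Finset (ZMod p)).card ≤ h * (2 * (cells h X).card + 1) :=
        le_trans (hGCL p h (J2 (cells h X)) hh0).2 (Nat.mul_le_mul_left h (COL_J2 _))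
      have h2 : ((CU h (J2 (cells h X)) : Finset (ZMod p)).card : ℝ) ≤
          (h : ℝ) * (2 * ((cells h X).card : ℝ) + 1) := by exact_mod_cast h1
      have h3 : (h : ℝ) ≤ (p : ℝ) ^ (1 / 2 + c₁) :=
        le_trans hhup (Real.rpow_le_rpow_of_exponent_le hPge (by linarith))
      calc ((CU h (J2 (cells h X)) : Finset (ZMod p)).card : ℝ)
          ≤ (h : ℝ) * (2 * ((cells h X).card : ℝ) + 1) := h2
        _ = 2 * ((h : ℝ) * (cells h X).card) + h := by ring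
        _ ≤ 3 * (p : ℝ) ^ (1 / 2 + c₁) := by linarith
    have hSL := HM p hpM χ (CU h (cells h X)) X L β hχ hβ hXsub hX1 hcaseL (by
      intro hL1 _
      refine le_trans (hP3H p χ h (CU h (cells h X)) (CU h (J2 (cells h X))) L β hχ hh0 hhp hGC1 hβ) ?_
      have hEN : EN h L ≤ 4 * m * L.card ^ 2 := hENL p h m L hh0 hhp hLcell
      have hEN' : (EN h L : ℝ) / h ≤ 4 * (p : ℝ) ^ (-(8 * c₁)) * (L.card : ℝ) ^ 2 := by
        have h3 : (EN h L : ℝ) ≤ 4 * (m : ℝ) * (L.card : ℝ) ^ 2 := by exact_mod_cast hEN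
        rw [div_le_iff₀ hh0']
        calc (EN h L : ℝ) ≤ 4 * (m : ℝ) * (L.card : ℝ) ^ 2 := h3
          _ ≤ 4 * ((h : ℝ) * (p : ℝ) ^ (-(8 * c₁))) * (L.card : ℝ) ^ 2 :=
              mul_le_mul_of_nonneg_right (mul_le_mul_of_nonneg_left hmup (by norm_num)) (by positivity)
          _ = 4 * (p : ℝ) ^ (-(8 * c₁)) * (L.card : ℝ) ^ 2 * h := by ring
      exact COL_numL (p : ℝ) c₁ (CU h (J2 (cells h X)) : Finset (ZMod p)).card L.card
        ((EN h L : ℝ) / h) hPge hc₁ hc₁s (Nat.cast_nonneg _) hG hL1 (by positivity) hEN')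
    -- the sum
    have hsum : ∑ x ∈ X, ‖FB χ B β x‖ ≤ ∑ x ∈ X, ‖FB χ L β x‖ + ∑ x ∈ X, ‖FB χ U β x‖ := by
      rw [← Finset.sum_add_distrib]
      refine Finset.sum_le_sum fun x _ => ?_
      rw [hsplit x]
      exact norm_add_le _ _
    have hbd : ∀ (t : ℝ) (D : Finset (ZMod p)), c' ≤ t → (D.card : ℝ) ≤ B.card →
        (p : ℝ) ^ (-t) * (Real.sqrt (p * (X.card * D.card)) + X.card * D.card) ≤
          (p : ℝ) ^ (-c') * (Real.sqrt (p * (X.card * B.card)) + X.card * B.card) := by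
      intro t D ht hD
      exact mul_le_mul (Real.rpow_le_rpow_of_exponent_le hPge (neg_le_neg ht)) (hmono D hD)
        (hR0 D) (by positivity)
    have h9c : 9 * (p : ℝ) ^ (-c') ≤ (p : ℝ) ^ (-c) := by
      calc 9 * (p : ℝ) ^ (-c') ≤ (p : ℝ) ^ (c' / 2) * (p : ℝ) ^ (-c') :=
            mul_le_mul_of_nonneg_right h9 (by positivity)
        _ = (p : ℝ) ^ (c' / 2 + -c') := (Real.rpow_add hPpos _ _).symm
        _ ≤ (p : ℝ) ^ (-c) := Real.rpow_le_rpow_of_exponent_le hPge (by linarith)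
    have hb1 := hbd cM L hc'M hLB'
    have hb2 := hbd (10 * c₁) U hc'1 hUB'
    calc ∑ x ∈ X, ‖FB χ B β x‖ ≤ ∑ x ∈ X, ‖FB χ L β x‖ + ∑ x ∈ X, ‖FB χ U β x‖ := hsum
      _ ≤ (p : ℝ) ^ (-c') * (Real.sqrt (p * (X.card * B.card)) + X.card * B.card) +
          8 * ((p : ℝ) ^ (-c') * (Real.sqrt (p * (X.card * B.card)) + X.card * B.card)) :=
          add_le_add (le_trans hSL hb1) (le_trans hSU (mul_le_mul_of_nonneg_left hb2 (by norm_num)))
      _ = (9 * (p : ℝ) ^ (-c')) * (Real.sqrt (p * (X.card * B.card)) + X.card * B.card) := by ring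
      _ ≤ _ := mul_le_mul_of_nonneg_right h9c (hR0 B)

end Pool.Agent.OL
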