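import Pool.Agent.helper35.OT.Spec

set_option autoImplicit false

namespace Pool.Agent.helper35.OT

open Finset

theorem NRM : NRM_stmt := by
  intro K _ _ φ η H hint hne hH hσ
  obtain ⟨m, hm⟩ := IsIntegrallyClosed.isIntegral_iff.1 (Algebra.isIntegral_norm ℚ hint)
  have hn0 : Algebra.norm ℚ η ≠ 0 := (Algebra.norm_ne_zero_iff).2 hne
  have hm0 : m ≠ 0 := by
    rintro rfl
    apply hn0
    rw [← hm, map_zero]
  have hprod := Algebra.norm_eq_prod_embeddings ℚ ℂ η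
  have h1 : (1 : ℝ) ≤ ∏ σ : K →ₐ[ℚ] ℂ, ‖σ η‖ := by
    rw [← norm_prod, ← hprod, ← hm]
    have e : algebraMap ℚ ℂ (algebraMap ℤ ℚ m) = (m : ℂ) := by
      rw [eq_intCast, map_intCast]
    rw [e, Complex.norm_intCast]
    exact_mod_cast Int.one_le_abs hm0
  let σ0 : K →ₐ[ℚ] ℂ := (Complex.ofRealHom.comp φ).toRatAlgHom
  have hs0 : ‖σ0 η‖ = |φ η| := by
    change ‖((φ η : ℝ) : ℂ)‖ = |φ η|
    rw [Complex.norm_real, Real.norm_eq_abs]
  classical
  rw [← Finset.mul_prod_erase univ _ (mem_univ σ0), hs0] at h1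
  have h2 : ∏ σ ∈ univ.erase σ0, ‖σ η‖ ≤ H ^ (Module.finrank ℚ K - 1) := by
    have h3 : ∏ σ ∈ univ.erase σ0, ‖σ η‖ ≤ ∏ _σ ∈ univ.erase σ0, H :=
      prod_le_prod (fun σ _ => norm_nonneg _) (fun σ _ => hσ (σ : K →+* ℂ))
    rw [prod_const, card_erase_of_mem (mem_univ σ0), card_univ, AlgHom.card] at h3
    exact h3
  exact h1.trans (mul_le_mul_of_nonneg_left h2 (abs_nonneg _))

end Pool.Agent.helper35.OT
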