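import Pool.Agent.helper64.OT.SpecD

set_option autoImplicit false

namespace Pool.Agent.OT

open Finset

theorem PC3 : PC3_stmt := by
  intro ι s f m hf hm
  have h1 : (∑ i ∈ s, f i * m i) ^ 2 ≤ (∑ i ∈ s, f i ^ 2 * m i) * ∑ i ∈ s, m i :=
    Finset.sum_sq_le_sum_mul_sum_of_sq_le_mul s (fun i hi => mul_nonneg (sq_nonneg _) (hm i hi)) hm
      fun i _ => le_of_eq (by ring)
  have h2 : (∑ i ∈ s, f i ^ 2 * m i) ^ 2 ≤ (∑ i ∈ s, f i ^ 4) * ∑ i ∈ s, m i ^ 2 :=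
    Finset.sum_sq_le_sum_mul_sum_of_sq_le_mul s (fun i hi => pow_nonneg (hf i hi) 4) (fun i hi => sq_nonneg _)
      fun i _ => le_of_eq (by ring)
  calc (∑ i ∈ s, f i * m i) ^ 4 = ((∑ i ∈ s, f i * m i) ^ 2) ^ 2 := by ring
    _ ≤ ((∑ i ∈ s, f i ^ 2 * m i) * ∑ i ∈ s, m i) ^ 2 := pow_le_pow_left₀ (sq_nonneg _) h1 2
    _ = (∑ i ∈ s, f i ^ 2 * m i) ^ 2 * (∑ i ∈ s, m i) ^ 2 := by ring
    _ ≤ (∑ i ∈ s, f i ^ 4) * (∑ i ∈ s, m i ^ 2) * (∑ i ∈ s, m i) ^ 2 :=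
        mul_le_mul_of_nonneg_right h2 (sq_nonneg _)

end Pool.Agent.OT
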