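import Pool.Agent.helper64.OT.SpecW

set_option autoImplicit false

namespace Pool.Agent.OT

open Finset Polynomial Pool.Agent.helper82.Weil Pool.Agent.helper82.KL

/-- the product over the prime field -/
theorem WMP_prod (p : ℕ) [Fact p.Prime] (K : Type) [Field K] [Algebra (ZMod p) K] (w : K) :
    ∏ i : Fin p, (w - algebraMap (ZMod p) K (ZMod.finEquiv p i)) = w ^ p - w := by
  have h1 : ∏ i : Fin p, (w - algebraMap (ZMod p) K (ZMod.finEquiv p i)) =
      ∏ a : ZMod p, (w - algebraMap (ZMod p) K a) :=
    Equiv.prod_comp (ZMod.finEquiv p).toEquiv (fun a : ZMod p => w - algebraMap (ZMod p) K a)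
  rw [h1]
  have h2 : ∏ a : ZMod p, (X - C a) = (X ^ p - X : (ZMod p)[X]) := by
    have h3 : (X ^ p - X : (ZMod p)[X]).roots = Finset.univ.val := by
      have h := FiniteField.roots_X_pow_card_sub_X (ZMod p)
      rwa [ZMod.card p] at h
    have h5 : (X ^ p - X : (ZMod p)[X]).natDegree = p :=
      FiniteField.X_pow_card_sub_X_natDegree_eq _ (Fact.out (p := p.Prime)).one_lt
    have h6 : (X ^ p - X : (ZMod p)[X]).Monic := by
      apply monic_X_pow_sub
      rw [degree_X]
      exact_mod_cast (Fact.out (p := p.Prime)).one_lt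
    have h7 : Multiset.card (X ^ p - X : (ZMod p)[X]).roots = (X ^ p - X : (ZMod p)[X]).natDegree := by
      rw [h3, h5]
      simp
    have h8 := prod_multiset_X_sub_C_of_monic_of_roots_card_eq h6 h7
    rw [h3] at h8
    exact h8
  have h4 : aeval w (∏ a : ZMod p, (X - C a)) = aeval w (X ^ p - X : (ZMod p)[X]) := by rw [h2]
  rw [map_prod] at h4
  simpa using h4

theorem WMP : WMP_stmt := by
  intro p _ K _ _ _ χ c θ hχ hc hθ
  have hchar : CharP K p := charP_of_injective_algebraMap (algebraMap (ZMod p) K).injective p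
  have hp : 0 < p := (Fact.out : p.Prime).pos
  have hinj : Function.Injective (fun i : Fin p => algebraMap (ZMod p) K (ZMod.finEquiv p i)) :=
    (algebraMap (ZMod p) K).injective.comp (ZMod.finEquiv p).injective
  have hnd : Nondeg (fun i : Fin p => θ - algebraMap (ZMod p) K (ZMod.finEquiv p i))
      (fun i : Fin p => - algebraMap (ZMod p) K (ZMod.finEquiv p i)) := by
    refine ⟨Sum.inl ⟨0, hp⟩, ?_⟩
    rintro (i | i) hi
    · intro h
      have h1 : θ - algebraMap (ZMod p) K (ZMod.finEquiv p i) =
          θ - algebraMap (ZMod p) K (ZMod.finEquiv p ⟨0, hp⟩) := h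
      have h2 := hinj (sub_right_injective h1)
      exact hi (congrArg Sum.inl h2)
    · intro h
      have h1 : - algebraMap (ZMod p) K (ZMod.finEquiv p i) =
          θ - algebraMap (ZMod p) K (ZMod.finEquiv p ⟨0, hp⟩) := h
      have h2 : θ = algebraMap (ZMod p) K (ZMod.finEquiv p ⟨0, hp⟩ - ZMod.finEquiv p i) := by
        rw [map_sub]
        linear_combination -h1
      apply hc
      rw [← hθ, h2, ← map_pow, ZMod.pow_card, sub_self]
  have key := ZZ_bound (normChar K χ) (normChar_ne_one χ hχ) _ _ hnd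
  have e : ZZ (normChar K χ) (fun i : Fin p => θ - algebraMap (ZMod p) K (ZMod.finEquiv p i))
      (fun i : Fin p => - algebraMap (ZMod p) K (ZMod.finEquiv p i)) =
      ∑ w : K, normChar K χ (w ^ p - w + c) * (starRingEnd ℂ) (normChar K χ (w ^ p - w)) := by
    unfold ZZ
    refine Finset.sum_congr rfl fun w _ => ?_
    rw [← map_prod, ← map_prod]
    have e1 : ∏ i : Fin p, (θ - algebraMap (ZMod p) K (ZMod.finEquiv p i) + w) = w ^ p - w + c := by
      have e2 : ∏ i : Fin p, (θ - algebraMap (ZMod p) K (ZMod.finEquiv p i) + w) =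
          ∏ i : Fin p, ((w + θ) - algebraMap (ZMod p) K (ZMod.finEquiv p i)) :=
        Finset.prod_congr rfl fun i _ => by ring
      rw [e2, WMP_prod, add_pow_char, ← hθ]
      ring
    have e3 : ∏ i : Fin p, (- algebraMap (ZMod p) K (ZMod.finEquiv p i) + w) = w ^ p - w := by
      rw [← WMP_prod p K w]
      exact Finset.prod_congr rfl fun i _ => by ring
    rw [e1, e3]
  rw [e] at key
  exact key

end Pool.Agent.OT
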